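import Mathlib
import Pool.Agent.H77.TF.Def
import Pool.Agent.H77.TF.Stm
import Pool.Agent.H77.GQ.Stm3
import Pool.Agent.H10.TF.Grd

/-!
# Project GQ, module EXO: a free arrangement has the exponents `1, a, b`
-/

set_option autoImplicit false

open MvPolynomial Module Pool.Agent.H77.TF Pool.Agent.H77.GQ

namespace Pool.Agent.H69.GQ

section

variable {K : Type} [Field K]

lemma evl_hom {a : Fin 3 → K} {v : Fin 3 → MvPolynomial (Fin 3) K} {d : ℕ}
    (h : ∀ i, (v i).IsHomogeneous d) : (evl a v).IsHomogeneous d := by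
  unfold evl
  refine IsHomogeneous.sum _ _ _ fun i _ => ?_
  have := (isHomogeneous_C (Fin 3) (a i)).mul (h i)
  rwa [zero_add] at this

lemma zero_of_dvd {a : Fin 3 → K} (ha : a ≠ 0) {f : MvPolynomial (Fin 3) K} (hf : f.IsHomogeneous 0)
    (hd : lin a ∣ f) : f = 0 := by
  by_contra h0
  obtain ⟨g, rfl⟩ := hd
  have h1 : lin a ≠ 0 := Pool.Agent.H10.TF.lin_ne ha
  have hg : g ≠ 0 := by rintro rfl; simp at h0
  have h2 := totalDegree_mul_of_isDomain h1 hg
  rw [hf.totalDegree h0, (Pool.Agent.H10.TF.lin_hom a).totalDegree h1] at h2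
  omega

lemma comp_mul {g c : MvPolynomial (Fin 3) K} {d : ℕ} (hg : g.IsHomogeneous d) (hd : 2 ≤ d) :
    homogeneousComponent 1 (c * g) = 0 := by
  have h1 : c * g = ∑ j ∈ Finset.range (c.totalDegree + 1), homogeneousComponent j c * g := by
    rw [← Finset.sum_mul, sum_homogeneousComponent]
  rw [h1, map_sum]
  refine Finset.sum_eq_zero fun j _ => ?_
  have h2 : homogeneousComponent j c * g ∈ homogeneousSubmodule (Fin 3) K (j + d) :=
    (homogeneousComponent_isHomogeneous j c).mul hg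
  rw [homogeneousComponent_of_mem h2, if_neg (by omega)]

lemma evl_sum {a : Fin 3 → K} {c : Fin 3 → MvPolynomial (Fin 3) K}
    {v : Fin 3 → Fin 3 → MvPolynomial (Fin 3) K} :
    evl a (∑ j, c j • v j) = ∑ j, c j * evl a (v j) := by
  simp only [evl, Finset.sum_apply, Pi.smul_apply, smul_eq_mul, Finset.mul_sum]
  rw [Finset.sum_comm]
  exact Finset.sum_congr rfl fun j _ => Finset.sum_congr rfl fun i _ => by ring

lemma exists_one {n : ℕ} {A : Fin n → Fin 3 → K} (hA : Simple A) (hn : 1 ≤ n) {e : Fin 3 → ℕ}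
    (b : Basis (Fin 3) (MvPolynomial (Fin 3) K) (LD A))
    (hb : ∀ j i, ((b j : Fin 3 → MvPolynomial (Fin 3) K) i).IsHomogeneous (e j)) : ∃ j, e j = 1 := by
  by_contra hne
  simp only [not_exists] at hne
  let i0 : Fin n := ⟨0, hn⟩
  have hθ : (fun i => X i : Fin 3 → MvPolynomial (Fin 3) K) ∈ LD A := fun i => dvd_refl _
  let θ : LD A := ⟨_, hθ⟩
  have h1 : (∑ j, b.repr θ j • (b j : Fin 3 → MvPolynomial (Fin 3) K)) = fun i => X i := by
    have h := congrArg (LD A).subtype (b.sum_repr θ)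
    rw [map_sum] at h
    exact h
  have h2 : lin (A i0) = ∑ j, b.repr θ j * evl (A i0) (b j : Fin 3 → MvPolynomial (Fin 3) K) := by
    rw [← evl_sum, h1]
    rfl
  have h3 : homogeneousComponent 1 (lin (A i0)) = 0 := by
    rw [h2, map_sum]
    refine Finset.sum_eq_zero fun j _ => ?_
    have h4 := evl_hom (a := A i0) (hb j)
    rcases Nat.lt_or_ge (e j) 2 with h | h
    · have h5 : e j = 0 := by
        have := hne j
        omega
      rw [h5] at h4
      rw [zero_of_dvd (hA.1 i0) h4 ((b j).2 i0), mul_zero, map_zero]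
    · exact comp_mul h4 h
  have h6 : lin (A i0) ∈ homogeneousSubmodule (Fin 3) K 1 := Pool.Agent.H10.TF.lin_hom _
  rw [homogeneousComponent_of_mem h6, if_pos rfl] at h3
  exact Pool.Agent.H10.TF.lin_ne (hA.1 i0) h3

end

theorem exo (hGRD : S_GRD) : S_EXO := by
  intro K _ n A hA hn hfree
  obtain ⟨e, b, hb⟩ := hGRD K 3 (Fin n) A hA hfree
  obtain ⟨j0, hj0⟩ := exists_one hA hn b hb
  have key : ∀ σ : Equiv.Perm (Fin 3), e (σ 0) = 1 → HasExp A ![1, e (σ 1), e (σ 2)] := by
    intro σ hσ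
    refine ⟨b.reindex σ.symm, fun j i => ?_⟩
    rw [Basis.reindex_apply, Equiv.symm_symm]
    fin_cases j
    · have := hb (σ 0) i
      rw [hσ] at this
      exact this
    · exact hb (σ 1) i
    · exact hb (σ 2) i
  have h0 : ∃ σ : Equiv.Perm (Fin 3), σ 0 = j0 := ⟨Equiv.swap 0 j0, by simp⟩
  obtain ⟨σ, rfl⟩ := h0
  rcases le_total (e (σ 1)) (e (σ 2)) with h | h
  · exact ⟨_, _, h, key σ hj0⟩
  · refine ⟨_, _, h, ?_⟩
    have := key (Equiv.swap 1 2 |>.trans σ) (by
      have : (Equiv.swap (1 : Fin 3) 2) 0 = 0 := by decide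
      simpa [this] using hj0)
    simpa using this

end Pool.Agent.H69.GQ
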